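import Mathlib
import Pool.Agent.H60.FD.Defs
import Pool.Agent.H60.FD.Rank

/-!
# No finitely dependent Markov random field is a proper colouring of `ℤ^d`

Let `X` be a finitely dependent Markov random field on `ℤ^d` with values in a finite set, invariant
under the translation by one in some coordinate direction. Then some value `c` occurs along
arbitrarily long segments in this direction with positive probability. In particular there is no
shift-invariant finitely dependent Markov random field which is supported on proper `q`-colourings,
for any `d ≥ 1` and any `q`.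

Idea of the proof: put a box around a half line, with walls at a distance more than `k` (the range
of dependence) from the line, and condition on the values on the walls. The law on the line does not
change, and by the Markov property the two sides of a cross section of the box are conditionally
independent given the values on the cross section. So the matrix `P(uv)`, `u`, `v` words on the
line, has rank at most `q` to the power `(2k+1)^(d-1)`. On the finite-dimensional space spanned by
its rows the operators `A_c` of reading the letter `c` have a sum which is a projection of rank one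
plus a nilpotent operator, by finite dependence; its trace is `1`, so some `A_c` is not nilpotent.
-/

set_option autoImplicit false

namespace Pool.Agent.Results.MP_83a7f3_pr.NoMarkovColoring

open MeasureTheory ProbabilityTheory Pool.Agent.H60.FD

/-- Almost every configuration is in the support. -/
theorem supp_null {d q : ℕ} (P : Measure (Cfg d q)) : P (Supp P)ᶜ = 0 := by
  have h1 : (Supp P)ᶜ ⊆ ⋃ (B : Finset (Fin d → ℤ)) (r : B → Fin q)
      (_ : P {y | ∀ v : B, y v = r v} = 0), {y | ∀ v : B, y v = r v} := by
    intro x hx
    rw [Set.mem_compl_iff] at hx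
    simp only [Supp, Set.mem_ofPred_eq, not_forall, not_lt, nonpos_iff_eq_zero] at hx
    obtain ⟨B, hB⟩ := hx
    simp only [Set.mem_iUnion]
    refine ⟨B, fun v => x v, ?_, fun v => rfl⟩
    rw [← hB]
    congr 1
    ext y
    exact ⟨fun h v hv => h ⟨v, hv⟩, fun h v => h v v.2⟩
  refine measure_mono_null h1 ?_
  refine measure_iUnion_null fun B => measure_iUnion_null fun r => measure_iUnion_null fun h => h

/-- (1) For all `d ≥ 1` and `q` there is no shift-invariant, finitely dependent Markov random field
on `ℤ^d` which is supported on proper `q`-colourings.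
(2) For every finitely dependent Markov random field on `ℤ^d` with values in a finite set which is
invariant under the translation by the unit vector of the direction `i` there is a value `c` such
that, for every `n`, all the values on a segment of `n` sites in the direction `i` are equal to `c`
with positive probability. -/
theorem result :
    (∀ d q : ℕ, 1 ≤ d → ¬ ∃ P : Measure (Cfg d q), IsProbabilityMeasure P ∧ (∀ t, Inv P t) ∧
      FinDep P ∧ Markov P ∧ ∀ x ∈ Supp P, Proper x) ∧
    (∀ (d q : ℕ) (i : Fin d) (P : Measure (Cfg d q)), IsProbabilityMeasure P →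
      Inv P (Pi.single i 1) → FinDep P → Markov P →
      ∃ c : Fin q, ∀ n : ℕ, 0 < P {x | ∀ t : ℕ, t < n → x (Pi.single i (t : ℤ)) = c}) := by
  have h2 : ∀ (d q : ℕ) (i : Fin d) (P : Measure (Cfg d q)), IsProbabilityMeasure P →
      Inv P (Pi.single i 1) → FinDep P → Markov P →
      ∃ c : Fin q, ∀ n : ℕ, 0 < P {x | ∀ t : ℕ, t < n → x (Pi.single i (t : ℤ)) = c} := by
    intro d q i P hP hI hF hM
    obtain ⟨c, hc⟩ := segments (i := i) hI hF hM
    exact ⟨c, fun n => (ENNReal.toReal_pos_iff.1 (hc n)).1⟩
  refine ⟨?_, h2⟩
  rintro d q hd ⟨P, hP, hI, hF, hM, hS⟩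
  obtain ⟨c, hc⟩ := h2 d q ⟨0, hd⟩ P hP (hI _) hF hM
  have h3 := hc 2
  have h4 : ¬ ({x : Cfg d q | ∀ t : ℕ, t < 2 → x (Pi.single ⟨0, hd⟩ (t : ℤ)) = c} ⊆
      (Supp P)ᶜ) := by
    intro h
    exact absurd (measure_mono_null h (supp_null P)) (ne_of_gt h3)
  obtain ⟨x, hx, hx'⟩ := Set.not_subset.1 h4
  have h5 := hS x (not_not.1 hx') (Pi.single ⟨0, hd⟩ ((0 : ℕ) : ℤ))
    (Pi.single ⟨0, hd⟩ ((1 : ℕ) : ℤ)) ?_
  · exact h5 ((hx 0 (by norm_num)).trans (hx 1 (by norm_num)).symm)
  · unfold gd
    rw [Finset.sum_eq_single (⟨0, hd⟩ : Fin d)]
    · simp
    · intro l _ hl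
      simp [hl]
    · intro h
      exact absurd (Finset.mem_univ _) h

end Pool.Agent.Results.MP_83a7f3_pr.NoMarkovColoring
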